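import Pool.Agent.W42.RG.Defs

set_option autoImplicit false
set_option linter.unusedVariables false

/-! Recurrence under a one-parameter group: its Lie algebra normalises the stabiliser. -/

namespace Pool.Agent.W930.LX

open Finset Filter Topology Pool.Agent.W42.RG

section lin

variable {V : Type} [NormedAddCommGroup V] [NormedSpace ℝ V] [FiniteDimensional ℝ V]

lemma hasSum_exp (N : V →L[ℝ] V) (t : ℝ) (z : V) :
    HasSum (fun l : ℕ => ((l.factorial : ℝ)⁻¹ * t ^ l) • ((N ^ l) z))
      (NormedSpace.exp (t • N) z) := by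
  have : CompleteSpace V := FiniteDimensional.complete ℝ V
  have h1 := NormedSpace.exp_series_hasSum_exp' (𝕂 := ℝ) (t • N)
  have h2 := (ContinuousLinearMap.apply ℝ V z).hasSum h1
  simp only [ContinuousLinearMap.apply_apply] at h2
  convert h2 using 2 with l
  rw [smul_pow, smul_apply, smul_apply, smul_smul]

lemma exp_mem (N : V →L[ℝ] V) (F : Submodule ℝ V) (hF : ∀ v ∈ F, N v ∈ F) (t : ℝ) (z : V)
    (hz : z ∈ F) : NormedSpace.exp (t • N) z ∈ F := by
  have hpow : ∀ l : ℕ, (N ^ l) z ∈ F := by
    intro l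
    induction l with
    | zero => simpa using hz
    | succ l ih =>
      rw [pow_succ']
      exact hF _ ih
  have h1 := (hasSum_exp N t z).tendsto_sum_nat
  exact (Submodule.closed_of_finiteDimensional F).mem_of_tendsto h1
    (Eventually.of_forall fun n => F.sum_mem fun l _ => F.smul_mem _ (hpow l))

lemma exp_cancel (N : V →L[ℝ] V) (t : ℝ) (z : V) :
    NormedSpace.exp (t • N) (NormedSpace.exp ((-t) • N) z) = z := by
  have : CompleteSpace V := FiniteDimensional.complete ℝ V
  let _ : NormedAlgebra ℚ (V →L[ℝ] V) := NormedAlgebra.restrictScalars ℚ ℝ _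
  have h1 : NormedSpace.exp (t • N + (-t) • N) =
      NormedSpace.exp (t • N) * NormedSpace.exp ((-t) • N) := by
    apply NormedSpace.exp_add_of_commute
    exact (Commute.refl N).smul_left t |>.smul_right (-t)
  have h2 : t • N + (-t) • N = 0 := by
    rw [neg_smul, add_neg_cancel]
  rw [h2, NormedSpace.exp_zero] at h1
  have h3 := congrArg (fun f : V →L[ℝ] V => f z) h1
  exact h3.symm

/-- the Taylor polynomial -/
noncomputable def Qt (N : V →L[ℝ] V) (i : ℕ) (z : V) (t : ℝ) : V :=
  ∑ l ∈ range (i + 1), ((l.factorial : ℝ)⁻¹ * t ^ l) • ((N ^ l) z)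

lemma tail_mem (N : V →L[ℝ] V) (F : Submodule ℝ V) (z : V) (i : ℕ)
    (hz : ∀ l, i + 1 ≤ l → (N ^ l) z ∈ F) (t : ℝ) :
    NormedSpace.exp (t • N) z - Qt N i z t ∈ F := by
  have h1 := ((hasSum_exp N t z).tendsto_sum_nat).sub_const (Qt N i z t)
  refine (Submodule.closed_of_finiteDimensional F).mem_of_tendsto h1 ?_
  filter_upwards [eventually_ge_atTop (i + 1)] with n hn
  have h2 : ∑ l ∈ range n, ((l.factorial : ℝ)⁻¹ * t ^ l) • ((N ^ l) z) - Qt N i z t =
      ∑ l ∈ Ico (i + 1) n, ((l.factorial : ℝ)⁻¹ * t ^ l) • ((N ^ l) z) := by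
    unfold Qt
    rw [sum_Ico_eq_sub _ hn]
  rw [h2]
  exact F.sum_mem fun l hl => F.smul_mem _ (hz l (mem_Ico.1 hl).1)

lemma Qt_tendsto (N : V →L[ℝ] V) (i : ℕ) (z : V) (t : ℕ → ℝ) (ht : Tendsto t atTop atTop)
    (u : ℝ) : Tendsto (fun n => (u * (i.factorial : ℝ) * (t n ^ i)⁻¹) • Qt N i z (t n)) atTop
      (𝓝 (u • (N ^ i) z)) := by
  have h1 : ∀ l ∈ range (i + 1), Tendsto (fun n => (u * (i.factorial : ℝ) * (t n ^ i)⁻¹ *
      ((l.factorial : ℝ)⁻¹ * t n ^ l)) • ((N ^ l) z)) atTop
      (𝓝 ((if l = i then u else 0) • ((N ^ l) z))) := by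
    intro l hl
    refine Tendsto.smul_const ?_ _
    rw [mem_range] at hl
    have hfi : (i.factorial : ℝ) ≠ 0 := by exact_mod_cast i.factorial_ne_zero
    rcases Nat.lt_or_ge l i with h | h
    · rw [if_neg (by omega)]
      have h2 : Tendsto (fun n => t n ^ l / t n ^ i) atTop (𝓝 0) :=
        (tendsto_pow_div_pow_atTop_zero h).comp ht
      have h3 := h2.const_mul (u * (i.factorial : ℝ) * (l.factorial : ℝ)⁻¹)
      rw [mul_zero] at h3
      refine h3.congr fun n => ?_
      rw [div_eq_mul_inv]
      ring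
    · have hli : l = i := by omega
      subst hli
      rw [if_pos rfl]
      refine tendsto_const_nhds.congr' ?_
      filter_upwards [ht.eventually_gt_atTop 0] with n hn
      have : t n ^ l ≠ 0 := (pow_pos hn l).ne'
      field_simp
  have h2 := tendsto_finsetSum _ h1
  have h3 : ∑ l ∈ range (i + 1), (if l = i then u else 0) • ((N ^ l) z) = u • (N ^ i) z := by
    rw [sum_eq_single i]
    · rw [if_pos rfl]
    · intro l _ hl
      rw [if_neg hl, zero_smul]
    · intro h
      exact absurd (mem_range.2 (Nat.lt_succ_self i)) h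
  rw [h3] at h2
  refine h2.congr fun n => ?_
  unfold Qt
  rw [smul_sum]
  refine sum_congr rfl fun l _ => ?_
  rw [smul_smul]

end lin

theorem t_NORM (hS : S_SUB) : S_NORM := by
  intro V M _ _ _ _ br Φ h ψ W t ht hψ hc Z hZ
  obtain ⟨c, hc⟩ := hc
  obtain ⟨S, hSst⟩ := hS V M br Φ h ψ
  have hmem : ∀ v : V, v ∈ S ↔ ∀ s : ℝ, Φ (s • v) ψ = ψ := by
    intro v
    rw [← SetLike.mem_coe, hSst]
    rfl
  set N := br W with hN
  have hZS : Z ∈ S := (hmem Z).2 hZ
  -- the invariant part
  let F : Submodule ℝ V :=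
    { carrier := {v | ∀ l : ℕ, (N ^ l) v ∈ S}
      add_mem' := by
        intro a b ha hb l
        rw [map_add]
        exact S.add_mem (ha l) (hb l)
      zero_mem' := by
        intro l
        rw [map_zero]
        exact S.zero_mem
      smul_mem' := by
        intro r a ha l
        rw [map_smul]
        exact S.smul_mem _ (ha l) }
  have hFS : ∀ v ∈ F, v ∈ S := fun v hv => by simpa using hv 0
  have hFN : ∀ v ∈ F, N v ∈ F := by
    intro v hv l
    have := hv (l + 1)
    rw [pow_succ] at this
    exact this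
  have key : ∀ j i : ℕ, 1 ≤ i → i + j = c + 1 → ∀ l, i ≤ l → (N ^ l) Z ∈ S := by
    intro j
    induction j with
    | zero =>
      intro i hi hij l hl
      have h1 : l = c + (l - c) := by omega
      rw [h1, pow_add]
      exact (hmem _).2 (hc ((N ^ (l - c)) Z))
    | succ j ih =>
      intro i hi hij l hl
      have h1 := ih (i + 1) (by omega) (by omega)
      have hF' : ∀ l, i + 1 ≤ l → (N ^ l) Z ∈ F := by
        intro l hl l'
        have : (N ^ l') ((N ^ l) Z) = (N ^ (l' + l)) Z := by
          rw [pow_add]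
          rfl
        rw [this]
        exact h1 _ (by omega)
      rcases Nat.lt_or_ge i l with h2 | h2
      · exact h1 l (by omega)
      · have hli : l = i := by omega
        subst hli
        rw [hmem]
        intro u
        -- the identity
        have hid : ∀ (τ s : ℝ), Φ (s • Qt N l Z τ) (Φ (τ • W) ψ) = Φ (τ • W) ψ := by
          intro τ s
          set T := NormedSpace.exp (τ • N) Z - Qt N l Z τ with hT
          have hTF : T ∈ F := tail_mem N F Z l hF' τ
          set Z' := s • (Z - NormedSpace.exp ((-τ) • N) T) with hZ'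
          have hZ'S : Z' ∈ S :=
            S.smul_mem _ (S.sub_mem hZS (hFS _ (exp_mem N F hFN (-τ) T hTF)))
          have h3 : NormedSpace.exp (br (τ • W)) Z' = s • Qt N l Z τ := by
            have hbr : br (τ • W) = τ • N := by rw [hN, map_smul]
            rw [hbr, hZ', map_smul, map_sub, exp_cancel, hT]
            congr 1
            abel
          have h4 := h.conj (τ • W) Z' ψ
          have h5 : Φ Z' ψ = ψ := by
            have := (hmem Z').1 hZ'S 1
            rwa [one_smul] at this
          rw [h3, h5] at h4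
          exact h4.symm
        have hdist : ∀ (τ s : ℝ), dist (Φ (s • Qt N l Z τ) ψ) ψ ≤ 2 * dist (Φ (τ • W) ψ) ψ := by
          intro τ s
          have h3 := dist_triangle (Φ (s • Qt N l Z τ) ψ) (Φ (s • Qt N l Z τ) (Φ (τ • W) ψ)) ψ
          rw [h.iso, hid, dist_comm ψ] at h3
          linarith
        have hlim := Qt_tendsto N l Z t ht u
        have h6 : Tendsto (fun n => Φ ((u * (l.factorial : ℝ) * (t n ^ l)⁻¹) • Qt N l Z (t n)) ψ)
            atTop (𝓝 (Φ (u • (N ^ l) Z) ψ)) :=
          ((h.cont ψ).tendsto _).comp hlim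
        have h7 : Tendsto (fun n => Φ ((u * (l.factorial : ℝ) * (t n ^ l)⁻¹) • Qt N l Z (t n)) ψ)
            atTop (𝓝 ψ) := by
          rw [tendsto_iff_dist_tendsto_zero]
          have h8 : Tendsto (fun n => 2 * dist (Φ (t n • W) ψ) ψ) atTop (𝓝 0) := by
            have := (tendsto_iff_dist_tendsto_zero.1 hψ).const_mul 2
            rwa [mul_zero] at this
          exact squeeze_zero (fun n => dist_nonneg) (fun n => hdist _ _) h8
        exact tendsto_nhds_unique h6 h7
  have hfin := key c 1 le_rfl (by omega) 1 le_rfl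
  rw [pow_one] at hfin
  exact (hmem _).1 hfin

end Pool.Agent.W930.LX
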